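import Pool.Agent.X171.ED.Neg
import Pool.Agent.X171.ED.One
import Pool.Agent.X171.ED.LpI
import Pool.Agent.X171.EL.All

open MeasureTheory
open scoped ENNReal

namespace Pool.Agent.Results.MP_32ff52_an.Equivariant

open Pool.Agent.X171.ED

/-- For `1 ≤ p < ∞` and the group of all surjective linear isometries, the space `L_p[0,1]` never
has the equivariant dual lifting property, and `ℓ_p` has it if and only if `p = 1`. -/
theorem result :
    (∀ (p : ℝ≥0∞) [Fact (1 ≤ p)], p ≠ ⊤ →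
      ¬ EDL (Lp ℝ p (volume.restrict (Set.Icc (0 : ℝ) 1)))) ∧
    (∀ (p : ℝ≥0∞) [Fact (1 ≤ p)], p ≠ ⊤ → (EDL (lp (fun _ : ℕ => ℝ) p) ↔ p = 1)) := by
  have hpos : ∀ p : ℝ≥0∞, 1 < p → p ≠ ⊤ → 1 < p.toReal := by
    intro p h1 h2
    have h3 := (ENNReal.toReal_lt_toReal ENNReal.one_ne_top h2).mpr h1
    rwa [ENNReal.toReal_one] at h3
  have h4 : (volume.restrict (Set.Ioc (0 : ℝ) 1)) = volume.restrict (Set.Icc (0 : ℝ) 1) :=
    Measure.restrict_congr_set Ioc_ae_eq_Icc
  refine ⟨?_, ?_⟩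
  · intro p hp h2
    rw [← h4]
    rcases hp.out.eq_or_lt with h1 | h1
    · subst h1
      exact Pool.Agent.X171.EL.not_edl_L1
    · have h0 : p ≠ 0 := p_ne_zero
      haveI : Nontrivial (Lp ℝ p LpI.μ) := LpI.exists_ne h0
      exact not_edl (hpos p h1 h2) (LpI.equiv h2)
  · intro p hp h2
    constructor
    · intro h
      by_contra hne
      have h1 : 1 < p := lt_of_le_of_ne hp.out (Ne.symm hne)
      exact not_edl (Z := ℝ) (hpos p h1 h2) (LinearIsometryEquiv.refl ℝ _) h
    · intro h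
      subst h
      exact edl_one

end Pool.Agent.Results.MP_32ff52_an.Equivariant
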